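import Mathlib
import Pool.Agent.Q157.SC.All

/-!
# MP_945175_al, Q1: yes

Every finite solvable permutation group has a 2-colouring whose colour-preserving subgroup is
abelian-by-2-group.
-/

set_option autoImplicit false

namespace Pool.Agent.Results.MP_945175_al.AbelianByTwoGroup

open Equiv

/-- The colour-preserving subgroup `G_γ`. -/
def colourPreserving {Ω : Type} (G : Subgroup (Perm Ω)) (γ : Ω → Fin 2) : Subgroup (Perm Ω) where
  carrier := {g | g ∈ G ∧ ∀ ω, γ (g ω) = γ ω}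
  one_mem' := ⟨G.one_mem, fun _ => rfl⟩
  mul_mem' := by
    rintro a b ⟨ha, ha'⟩ ⟨hb, hb'⟩
    refine ⟨G.mul_mem ha hb, fun ω => ?_⟩
    show γ (a (b ω)) = γ ω
    rw [ha', hb']
  inv_mem' := by
    rintro a ⟨ha, ha'⟩
    refine ⟨G.inv_mem ha, fun ω => ?_⟩
    rw [← ha' (a⁻¹ ω)]
    congr 1
    exact a.apply_symm_apply ω

/-- The group `H` has an abelian normal subgroup `N` such that the order of `H / N` is a power of
two. -/
def IsAbelianByTwoGroup (H : Type) [Group H] : Prop :=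
  ∃ N : Subgroup H, N.Normal ∧ (∀ a ∈ N, ∀ b ∈ N, a * b = b * a) ∧ ∃ k : ℕ, Nat.card (H ⧸ N) = 2 ^ k

/-- Every solvable permutation group `G` on a finite set `Ω` has a 2-colouring `γ` such that `G_γ` is
abelian-by-2-group. -/
theorem result : ∀ (Ω : Type) [Finite Ω] (G : Subgroup (Perm Ω)), Group.IsSolvable G →
    ∃ γ : Ω → Fin 2, IsAbelianByTwoGroup (colourPreserving G γ) := by
  intro Ω _ G hs
  obtain ⟨c, hc⟩ := Pool.Agent.Q157.SC.main_all Ω G hs
  let γ : Ω → Fin 2 := fun x => if c x = true then 0 else 1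
  have hγ : ∀ x y, γ x = γ y → c x = c y := by
    intro x y h
    by_cases h1 : c x = true <;> by_cases h2 : c y = true <;> simp_all [γ]
  refine ⟨γ, ?_⟩
  set H := colourPreserving G γ with hH
  have hmem : ∀ h : H, h.1 ∈ G ∧ ∀ x, c (h.1 x) = c x := by
    rintro ⟨h, hG, hx⟩
    exact ⟨hG, fun x => hγ _ _ (hx x)⟩
  have hOP : ∀ h : H, Pool.Agent.Q157.SC.OP h → Pool.Agent.Q157.SC.OP h.1 := by
    rintro h ⟨m, hm, hhm⟩
    exact ⟨m, hm, congrArg Subtype.val hhm⟩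
  have hcomm : ∀ a b : H, Pool.Agent.Q157.SC.OP a → Pool.Agent.Q157.SC.OP b → a * b = b * a := by
    intro a b ha hb
    exact Subtype.ext (hc a.1 (hmem a).1 b.1 (hmem b).1 (hOP a ha) (hOP b hb) (hmem a).2 (hmem b).2)
  let N : Subgroup H :=
    { carrier := {h | Pool.Agent.Q157.SC.OP h}
      one_mem' := ⟨1, odd_one, one_pow 1⟩
      mul_mem' := by
        rintro a b ⟨m, hm, ham⟩ ⟨n, hn, hbn⟩
        refine ⟨m * n, hm.mul hn, ?_⟩
        have h1 : Commute a b := hcomm a b ⟨m, hm, ham⟩ ⟨n, hn, hbn⟩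
        rw [h1.mul_pow, pow_mul, ham, one_pow, one_mul, mul_comm m n, pow_mul, hbn, one_pow]
      inv_mem' := by
        rintro a ⟨m, hm, ham⟩
        exact ⟨m, hm, by rw [inv_pow, ham, inv_one]⟩ }
  have hN : ∀ h, h ∈ N ↔ Pool.Agent.Q157.SC.OP h := fun h => Iff.rfl
  have hnorm : N.Normal := by
    constructor
    rintro n ⟨m, hm, hnm⟩ g
    exact ⟨m, hm, by rw [conj_pow, hnm, mul_one, mul_inv_cancel]⟩
  refine ⟨N, hnorm, fun a ha b hb => hcomm a b ha hb, ?_⟩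
  have h2 : Fact (Nat.Prime 2) := ⟨Nat.prime_two⟩
  rw [← IsPGroup.iff_card]
  intro q
  obtain ⟨h, rfl⟩ := QuotientGroup.mk_surjective q
  obtain ⟨k, m, hm, hkm⟩ := Nat.exists_eq_two_pow_mul_odd (orderOf_pos h).ne'
  refine ⟨k, ?_⟩
  rw [← QuotientGroup.mk_pow, QuotientGroup.eq_one_iff, hN]
  exact ⟨m, hm, by rw [← pow_mul, ← hkm, pow_orderOf_eq_one]⟩

end Pool.Agent.Results.MP_945175_al.AbelianByTwoGroup
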